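import Pool.Agent.W208.TL.Stm

/-!
Project TL: from the uniform statement to the limit.
-/

set_option autoImplicit false

namespace Pool.Agent.W397.TL

open Finset Filter Pool.Agent.W208.TL

lemma norm_nit (t : ℝ) (n : ℕ) : ‖nit t n‖ = 1 := by
  unfold nit
  rw [mul_comm, Complex.norm_exp_ofReal_mul_I]

lemma nit_sub (t : ℝ) {n : ℕ} (hn : 1 ≤ n) : ‖nit t n - nit t (n + 1)‖ ≤ |t| / n := by
  have hn0 : (0 : ℝ) < n := by exact_mod_cast hn
  set x : ℝ := t * Real.log n with hx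
  set y : ℝ := t * Real.log ((n + 1 : ℕ) : ℝ) with hy
  have h1 : nit t n - nit t (n + 1) =
      Complex.exp (Complex.I * (y : ℝ)) * (Complex.exp (Complex.I * ((x - y : ℝ) : ℂ)) - 1) := by
    unfold nit
    rw [mul_sub, ← Complex.exp_add, mul_one]
    congr 2
    push_cast
    rw [hx, hy]
    push_cast
    ring
  have h2 : ‖Complex.exp (Complex.I * (y : ℝ))‖ = 1 := by
    rw [mul_comm, Complex.norm_exp_ofReal_mul_I]
  rw [h1, norm_mul, h2, one_mul]
  refine (Real.norm_exp_I_mul_ofReal_sub_one_le).trans ?_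
  have h3 : x - y = -(t * (Real.log ((n + 1 : ℕ) : ℝ) - Real.log n)) := by
    rw [hx, hy]; ring
  have h4 : 0 ≤ Real.log ((n + 1 : ℕ) : ℝ) - Real.log n := by
    have : Real.log n ≤ Real.log ((n + 1 : ℕ) : ℝ) :=
      Real.log_le_log hn0 (by push_cast; linarith)
    linarith
  have h5 : Real.log ((n + 1 : ℕ) : ℝ) - Real.log n ≤ 1 / n := by
    rw [← Real.log_div (by positivity) hn0.ne']
    have e : (((n + 1 : ℕ) : ℝ)) / n = 1 / n + 1 := by
      push_cast
      field_simp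
      ring
    rw [e]
    have := Real.log_le_sub_one_of_pos (show (0 : ℝ) < 1 / n + 1 by positivity)
    linarith
  rw [Real.norm_eq_abs, h3, abs_neg, abs_mul, abs_of_nonneg h4]
  calc |t| * (Real.log ((n + 1 : ℕ) : ℝ) - Real.log n) ≤ |t| * (1 / n) :=
        mul_le_mul_of_nonneg_left h5 (abs_nonneg t)
    _ = |t| / n := by ring

lemma abel (a g : ℕ → ℂ) (X : ℕ) : ∑ n ∈ Ioc 0 X, a n * g n =
    (∑ n ∈ Ioc 0 X, a n) * g (X + 1) +
      ∑ n ∈ Ioc 0 X, (∑ m ∈ Ioc 0 n, a m) * (g n - g (n + 1)) := by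
  induction X with
  | zero => simp
  | succ X ih =>
    have h : Ioc 0 (X + 1) = insert (X + 1) (Ioc 0 X) := by
      ext n
      simp only [mem_Ioc, mem_insert]
      omega
    have hn : (X + 1) ∉ Ioc 0 X := by simp
    rw [h, sum_insert hn, sum_insert hn, sum_insert hn, ih, h, sum_insert hn]
    ring

lemma bound_one (a : ℕ → ℂ) (ha : ∀ n, ‖a n‖ ≤ 1) (t A δ : ℝ) (hA : |t| ≤ A) (hδ : 0 ≤ δ)
    (n0 : ℕ) (h : ∀ n, n0 ≤ n → ‖∑ m ∈ Ioc 0 n, a m‖ ≤ δ * n) (X : ℕ) (hX : n0 ≤ X) :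
    ‖∑ n ∈ Ioc 0 X, a n * nit t n‖ ≤ (1 + A) * δ * X + A * n0 := by
  have hA0 : 0 ≤ A := (abs_nonneg t).trans hA
  have hS : ∀ n : ℕ, ‖∑ m ∈ Ioc 0 n, a m‖ ≤ n := by
    intro n
    refine (norm_sum_le _ _).trans ?_
    refine (sum_le_sum fun m _ => ha m).trans ?_
    simp
  have hterm : ∀ n ∈ Ioc 0 X, ‖(∑ m ∈ Ioc 0 n, a m) * (nit t n - nit t (n + 1))‖ ≤
      A * δ + (if n < n0 then A else 0) := by
    intro n hn
    rw [mem_Ioc] at hn
    have hn0 : (0 : ℝ) < n := by exact_mod_cast hn.1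
    rw [norm_mul]
    have h1 := nit_sub t (n := n) hn.1
    have h1' : ‖nit t n - nit t (n + 1)‖ ≤ A / n :=
      h1.trans (div_le_div_of_nonneg_right hA hn0.le)
    by_cases hlt : n < n0
    · rw [if_pos hlt]
      have h2 : ‖∑ m ∈ Ioc 0 n, a m‖ * ‖nit t n - nit t (n + 1)‖ ≤ n * (A / n) :=
        mul_le_mul (hS n) h1' (norm_nonneg _) hn0.le
      have h3 : (n : ℝ) * (A / n) = A := by field_simp
      have h4 : 0 ≤ A * δ := mul_nonneg hA0 hδ
      linarith
    · rw [if_neg hlt, add_zero]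
      have h2 : ‖∑ m ∈ Ioc 0 n, a m‖ * ‖nit t n - nit t (n + 1)‖ ≤ (δ * n) * (A / n) :=
        mul_le_mul (h n (by omega)) h1' (norm_nonneg _) (by positivity)
      have h3 : (δ * (n : ℝ)) * (A / n) = A * δ := by field_simp
      linarith
  rw [abel]
  refine (norm_add_le _ _).trans ?_
  have h1 : ‖(∑ n ∈ Ioc 0 X, a n) * nit t (X + 1)‖ ≤ δ * X := by
    rw [norm_mul, norm_nit, mul_one]
    exact h X hX
  have h2 : ‖∑ n ∈ Ioc 0 X, (∑ m ∈ Ioc 0 n, a m) * (nit t n - nit t (n + 1))‖ ≤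
      A * δ * X + A * n0 := by
    refine (norm_sum_le _ _).trans ?_
    refine (sum_le_sum hterm).trans ?_
    rw [sum_add_distrib, sum_const, Nat.card_Ioc, ← sum_filter, sum_const, nsmul_eq_mul,
      nsmul_eq_mul]
    have h3 : (((Ioc 0 X).filter (fun n => n < n0)).card : ℝ) ≤ n0 := by
      have : ((Ioc 0 X).filter (fun n => n < n0)).card ≤ n0 := by
        calc ((Ioc 0 X).filter (fun n => n < n0)).card ≤ (range n0).card := by
              refine card_le_card ?_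
              intro n hn
              rw [mem_filter] at hn
              exact mem_range.mpr hn.2
          _ = n0 := card_range n0
      exact_mod_cast this
    have h4 := mul_le_mul_of_nonneg_right h3 hA0
    have h5 : (((X - 0 : ℕ)) : ℝ) = X := by simp
    rw [h5]
    linarith
  nlinarith [h1, h2]

lemma small_means (f : ℕ → ℂ) (hf : ∀ n, ‖f n‖ ≤ 1) (hmean : ∀ q r : ℕ, 1 ≤ q →
    Tendsto (fun X : ℕ => (∑ n ∈ (Ioc 0 X).filter (fun n => n ≡ r [MOD q]), f n) / (X : ℂ))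
      atTop (nhds 0)) (A : ℕ) (hA : 1 ≤ A) : ∀ᶠ X : ℕ in atTop, SmallMeans f A X := by
  have hA0 : (0 : ℝ) < A := by exact_mod_cast hA
  set δ : ℝ := 1 / (2 * A * (1 + A)) with hδ
  have hδ0 : 0 < δ := by positivity
  -- one pair
  have hpair : ∀ x : ℕ × ℕ, ∃ n0 : ℕ, 1 ≤ x.1 → ∀ n, n0 ≤ n →
      ‖∑ m ∈ Ioc 0 n, (if m ≡ x.2 [MOD x.1] then f m else 0)‖ ≤ δ * n := by
    intro x
    by_cases hx : 1 ≤ x.1
    · have h1 := (hmean x.1 x.2 hx).norm
      rw [norm_zero] at h1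
      have h2 := h1.eventually_lt_const hδ0
      obtain ⟨n0, h3⟩ := eventually_atTop.mp (h2.and (eventually_gt_atTop 0))
      refine ⟨n0, fun _ n hn => ?_⟩
      obtain ⟨h4, h5⟩ := h3 n hn
      have hn0 : (0 : ℝ) < n := by exact_mod_cast h5
      rw [norm_div, Complex.norm_natCast, div_lt_iff₀ hn0] at h4
      rw [← sum_filter]
      exact h4.le
    · exact ⟨0, fun h => absurd h hx⟩
  choose n0 hn0 using hpair
  set M : ℕ := (range (A + 1) ×ˢ range (A + 1)).sup n0 with hM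
  filter_upwards [eventually_ge_atTop M, eventually_ge_atTop (2 * A * (A * M))] with X hX1 hX2
  intro q r hq hqA t ht
  have hr : r % q < q := Nat.mod_lt r hq
  have hmem : (q, r % q) ∈ range (A + 1) ×ˢ range (A + 1) := by
    rw [mem_product, mem_range, mem_range]
    exact ⟨by omega, by omega⟩
  have hle : n0 (q, r % q) ≤ M := le_sup (f := n0) hmem
  have h1 := bound_one (fun n => if n ≡ r % q [MOD q] then f n else 0) (fun n => by
    by_cases hc : n ≡ r % q [MOD q]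
    · rw [if_pos hc]; exact hf n
    · rw [if_neg hc]; simp) t A δ ht hδ0.le M (fun n hn => hn0 (q, r % q) hq n (hle.trans hn)) X hX1
  have e1 : ∑ n ∈ (Ioc 0 X).filter (fun n => n ≡ r [MOD q]), f n * nit t n =
      ∑ n ∈ Ioc 0 X, (if n ≡ r % q [MOD q] then f n else 0) * nit t n := by
    rw [sum_filter]
    refine sum_congr rfl fun n _ => ?_
    have hiff : n ≡ r [MOD q] ↔ n ≡ r % q [MOD q] := by
      unfold Nat.ModEq
      rw [Nat.mod_mod]
    by_cases hn : n ≡ r [MOD q]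
    · rw [if_pos hn, if_pos (hiff.mp hn)]
    · rw [if_neg hn, if_neg (fun h => hn (hiff.mpr h)), zero_mul]
  rw [e1]
  refine h1.trans ?_
  have h2 : (1 + (A : ℝ)) * δ * X = X / (2 * A) := by
    rw [hδ]
    field_simp
  have h3 : (A : ℝ) * M ≤ X / (2 * A) := by
    rw [le_div_iff₀ (by positivity)]
    have : ((2 * A * (A * M) : ℕ) : ℝ) ≤ X := by exact_mod_cast hX2
    push_cast at this
    linarith
  rw [h2]
  calc (X : ℝ) / (2 * A) + A * M ≤ X / (2 * A) + X / (2 * A) := by linarith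
    _ = X / A := by field_simp; ring

/-- ELL from UELL -/
theorem ell : UELL → ELL := by
  intro hU k h0 h hinj hne f hf hmean q χ t u hq hu htame
  rw [Metric.tendsto_atTop]
  intro ε hε
  set B : ℕ := ∑ j, (q j + ⌈|t j|⌉₊) with hB
  obtain ⟨A, X0, hA, hX⟩ := hU k h0 h hinj hne B (ε / 2) (half_pos hε)
  have hA0 : (0 : ℝ) < A := by exact_mod_cast hA
  have ev1 := small_means f hf.1 hmean A hA
  have ev2 : ∀ᶠ X : ℕ in atTop, ∀ j, ∑ p ∈ (Icc 1 X).filter (fun p => p.Prime ∧ X < p ^ A),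
      (1 - (u j p).re) / p < 1 / A := by
    rw [eventually_all]
    intro j
    exact (htame j A hA).eventually_lt_const (by positivity)
  obtain ⟨N, hN⟩ := eventually_atTop.mp
    (ev1.and (ev2.and ((eventually_ge_atTop X0).and (eventually_gt_atTop 0))))
  refine ⟨N, fun X hXN => ?_⟩
  obtain ⟨h1, h2, h3, h4⟩ := hN X hXN
  have hX0 : (0 : ℝ) < X := by exact_mod_cast h4
  have key := hX X h3 f hf h1 q χ t u (fun j => ⟨hq j, ?_⟩) (fun j => ?_) hu (fun j => (h2 j).le)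
  · rw [dist_zero_right, norm_div, Complex.norm_natCast]
    calc _ ≤ (ε / 2 * X) / X := div_le_div_of_nonneg_right key hX0.le
      _ = ε / 2 := by field_simp
      _ < ε := half_lt_self hε
  · calc q j ≤ q j + ⌈|t j|⌉₊ := Nat.le_add_right _ _
      _ ≤ B := single_le_sum (f := fun j => q j + ⌈|t j|⌉₊) (fun _ _ => Nat.zero_le _)
          (mem_univ j)
  · calc |t j| ≤ (⌈|t j|⌉₊ : ℝ) := Nat.le_ceil _
      _ ≤ B := by
        have : ⌈|t j|⌉₊ ≤ B := by
          calc ⌈|t j|⌉₊ ≤ q j + ⌈|t j|⌉₊ := Nat.le_add_left _ _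
            _ ≤ B := single_le_sum (f := fun j => q j + ⌈|t j|⌉₊) (fun _ _ => Nat.zero_le _)
                (mem_univ j)
        exact_mod_cast this

end Pool.Agent.W397.TL
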